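import Pool.Agent.Helper24.MM.Final
import Pool.Graph.R_pool_sql_team_seeded_f72693b1.W946.KosFin

set_option autoImplicit false

/-!
# Homogeneous circuits for `m × m` matrices have at least `(14 - o(1)) m²` gates

Circuits (`Circuit`, `Circuit.poly`, `Circuit.nonscalarCount`, `Circuit.size`) are defined in
`Pool.Agent.H522R2.Circuit`; the variables `Vars m` and the entries `entry F m i j` of the product
of two generic `m × m` matrices in `Pool.Agent.H88R3.MM.Circ`.
-/

namespace Pool.Agent.Results.MP_e72dc0_lc.HomogeneousFourteen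

open Pool.Agent.H88R3.MM Pool.Agent.H522R2 Pool.Agent.Helper24.MM

/-- the circuit has the entries of the product of two generic `m × m` matrices among the
polynomials which it computes -/
def Computes {F : Type*} [Field F] {m : ℕ} (C : Circuit F (Vars m)) : Prop :=
  ∀ i j, ∃ k : Fin C.nodes, C.poly k = entry F m i j

/-- the number of addition gates -/
noncomputable def adds {F V : Type*} (C : Circuit F V) : ℕ :=
  Nat.card {k : Fin C.nodes // ∃ i j, C.gate k = Gate.add i j}

/-- the number of gates which compute an inhomogeneous polynomial -/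
noncomputable def inhom {F V : Type*} [Field F] (C : Circuit F V) : ℕ :=
  Nat.card {k : Fin C.nodes //
    ((∃ i j, C.gate k = Gate.add i j) ∨ ∃ i j, C.gate k = Gate.mul i j) ∧
      ¬ ∃ d : ℕ, (C.poly k).IsHomogeneous d}

theorem adds_eq {F V : Type*} (C : Circuit F V) : adds C = (AA C).card := by
  classical
  rw [adds, Nat.card_eq_fintype_card, Fintype.card_subtype]
  unfold AA
  congr

theorem inhom_eq {F V : Type*} [Field F] (C : Circuit F V) : inhom C = (II C).card := by
  classical
  rw [inhom, Nat.card_eq_fintype_card, Fintype.card_subtype]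
  unfold II
  congr

theorem adds_add_le {F V : Type*} [Field F] (C : Circuit F V) :
    adds C + C.nonscalarCount ≤ C.size := by
  classical
  rw [adds, Circuit.nonscalarCount, Circuit.size, Nat.card_eq_fintype_card,
    Nat.card_eq_fintype_card, Nat.card_eq_fintype_card, Fintype.card_subtype,
    Fintype.card_subtype, Fintype.card_subtype, ← Finset.card_union_of_disjoint]
  · refine Finset.card_le_card fun k hk => ?_
    rw [Finset.mem_union, Finset.mem_filter, Finset.mem_filter] at hk
    rw [Finset.mem_filter]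
    rcases hk with ⟨_, h⟩ | ⟨_, i, j, h, _⟩
    · exact ⟨Finset.mem_univ _, Or.inl h⟩
    · exact ⟨Finset.mem_univ _, Or.inr ⟨i, j, h⟩⟩
  · rw [Finset.disjoint_left]
    intro k hk hk'
    rw [Finset.mem_filter] at hk hk'
    obtain ⟨_, i, j, h⟩ := hk
    obtain ⟨_, i', j', h', _⟩ := hk'
    rw [h] at h'
    simp at h'

universe u

/-- Let `C` be a circuit over a field which computes the entries of the product of two generic
`m × m` matrices, `A` the number of its additions, `N` the number of its nonscalar multiplications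
and `I` the number of its gates which compute an inhomogeneous polynomial. Then
`A + 3 I ≥ (11 - δ) m ^ 2` and `A + N + 3 I ≥ (14 - δ) m ^ 2` if `m ≥ m₀(δ)`; `m₀` does not depend
on the field. If all nodes compute homogeneous polynomials then `A ≥ (11 - δ) m ^ 2` and
`C` has at least `A + N ≥ (14 - δ) m ^ 2` gates. -/
theorem result (δ : ℝ) (hδ : 0 < δ) : ∃ m₀ : ℕ, ∀ (F : Type u) [Field F] (m : ℕ)
    (C : Circuit F (Vars m)), m₀ ≤ m → Computes C →
    ((11 - δ) * (m : ℝ) ^ 2 ≤ adds C + 3 * inhom C ∧
      (14 - δ) * (m : ℝ) ^ 2 ≤ adds C + C.nonscalarCount + 3 * inhom C) ∧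
    ((∀ k, ∃ d : ℕ, (C.poly k).IsHomogeneous d) →
      (11 - δ) * (m : ℝ) ^ 2 ≤ adds C ∧
      (14 - δ) * (m : ℝ) ^ 2 ≤ adds C + C.nonscalarCount ∧
      adds C + C.nonscalarCount ≤ C.size) := by
  classical
  obtain ⟨m₁, h₁⟩ := cheap_bound.{u} (δ / 2) (by positivity)
  obtain ⟨m₂, h₂⟩ := Pool.Agent.W946.Kos.bound_eventually.{u} (δ / 2) (by positivity)
  refine ⟨max m₁ m₂, fun F _ m C hm hC => ?_⟩
  have e1 := h₁ F m C (le_trans (le_max_left _ _) hm) hC
  have e2 := h₂ F m C (le_trans (le_max_right _ _) hm) hC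
  rw [← adds_eq, ← inhom_eq] at e1
  have hm0 : (0 : ℝ) ≤ (m : ℝ) ^ 2 := by positivity
  have hδm : 0 ≤ δ * (m : ℝ) ^ 2 := by positivity
  have e3 : (11 - δ) * (m : ℝ) ^ 2 ≤ adds C + 3 * inhom C := by nlinarith
  have e4 : (14 - δ) * (m : ℝ) ^ 2 ≤ adds C + C.nonscalarCount + 3 * inhom C := by nlinarith
  refine ⟨⟨e3, e4⟩, fun hhom => ?_⟩
  have h0 : inhom C = 0 := by
    rw [inhom, Nat.card_eq_zero]
    left
    exact ⟨fun ⟨k, _, hk⟩ => hk (hhom k)⟩
  rw [h0] at e3 e4
  push_cast at e3 e4
  exact ⟨by linarith, by linarith, adds_add_le C⟩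

end Pool.Agent.Results.MP_e72dc0_lc.HomogeneousFourteen
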