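import Pool.Agent.Helper85.Online.Lower
import Pool.Agent.Helper85.Online.Winograd

set_option autoImplicit false

/-!
# The number of products of online algorithms for matrix multiplication

Circuits (`Circuit`, `Circuit.poly`, `Circuit.nonscalarCount`) are defined in
`Pool.Agent.H522R2.Circuit`, the variables `Vars m` and the entries `entry F m i k` of the product
of two generic `m × m` matrices in `Pool.Agent.H88R3.MM.Circ`, and `IsOnline`, `lateCount` in
`Pool.Agent.Helper85.Online.Defs`. The nodes of a circuit are evaluated in the order of their
numbers.
-/

namespace Pool.Agent.Results.MP_e72dc0_lc.OnlineLookahead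

open Pool.Agent.H88R3.MM Pool.Agent.H522R2 Pool.Agent.Helper85.Online

universe u

/-- (1) Let a circuit over a field compute the product of two generic `m × m` matrices online with
lookahead `w ≥ 1`: the column `k` of the result is computed before the columns `k + w, k + w + 1,
…` of the second matrix are read. Then it makes at least `m ^ 2 * ⌈m / w⌉ / 2` nonscalar
multiplications after the first entry of the second matrix is read (so an arbitrary preprocessing of
the first matrix is free).
(2) For `w = 1` this is `m ^ 3 / 2`, and it is optimal up to lower order terms: over every field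
there is an online circuit with lookahead `1` (Winograd's inner product algorithm) with at most
`(m ^ 3 + 3 m ^ 2 + 2 m) / 2` nonscalar multiplications altogether. -/
theorem result :
    (∀ (F : Type u) [Field F] (m w : ℕ) (C : Circuit F (Vars m))
      (o : Fin m → Fin m → Fin C.nodes), (∀ i k, C.poly (o i k) = entry F m i k) → 1 ≤ w →
      IsOnline w C o →
      m ^ 2 * ((m + w - 1) / w) ≤ 2 * lateCount C ∧ lateCount C ≤ C.nonscalarCount) ∧
    (∀ (F : Type u) [Field F] (m : ℕ), ∃ (C : Circuit F (Vars m))
      (o : Fin m → Fin m → Fin C.nodes), (∀ i k, C.poly (o i k) = entry F m i k) ∧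
      IsOnline 1 C o ∧ 2 * C.nonscalarCount ≤ m ^ 3 + 3 * m ^ 2 + 2 * m) :=
  ⟨fun _ _ _ w C o ho hw hon => ⟨lower C o ho w hw hon, lateCount_le C⟩, fun F _ m => upper F m⟩

end Pool.Agent.Results.MP_e72dc0_lc.OnlineLookahead
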