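import Mathlib
import Pool.Agent.Helper85.Barrier.MM

set_option autoImplicit false

/-!
# Rank methods cannot prove more than `3.5 m ^ 2 + 3 m + 2` products for matrix multiplication

A rank method is a linear map `φ` from the trilinear forms (on three copies of the space of
`m × m` matrices) to matrices. If `rank (φ (x ⊗ y ⊗ z)) ≤ r` for all `x`, `y`, `z`, then every
algorithm which multiplies `m × m` matrices with `N` products satisfies
`rank (φ (MM m)) ≤ r N`. We show that the lower bounds `rank (φ (MM m)) / r` obtained in this way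
are at most `3.5 m ^ 2 + 3 m + 2` (and at most `3.5 m ^ 2 + 2` for even `m`), over every infinite
field. The reason is that `tr (X Y Z)` is a restriction of a symmetric trilinear form in about
`1.75 m ^ 2` variables, and so of the multiplication of a commutative local algebra of dimension
about `3.5 m ^ 2`.
-/

namespace Pool.Agent.Results.MP_e72dc0_lc.RankMethodBarrier

open Pool.Agent.Helper85.Barrier

/-- The trilinear form `tr (X Y Z)` on the `m × m` matrices, given by its coefficients: the
coefficient of `X i j * Y j' k * Z k' i'` is `1` if `j = j'`, `k = k'`, `i = i'`, and `0`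
otherwise. -/
def MMTensor (F : Type) [Field F] (m : ℕ) :
    Fin m × Fin m → Fin m × Fin m → Fin m × Fin m → F :=
  fun x y z => if x.2 = y.1 ∧ y.2 = z.1 ∧ z.2 = x.1 then 1 else 0

/-- The trilinear form `tr (X Y Z)` comes from a symmetric trilinear form, by maps of the entries
of the matrices to the variables. -/
theorem restriction (F : Type) [Field F] (m : ℕ) :
    ∃ (U : Type) (_ : Fintype U) (G : Sym3 F U) (a b c : Fin m × Fin m → U),
      4 * Fintype.card U ≤ 7 * m ^ 2 + 6 * m ∧ (Even m → 4 * Fintype.card U = 7 * m ^ 2) ∧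
      ∀ x y z, MMTensor F m x y z = G.g (a x) (b y) (c z) := by
  classical
  -- split the indices
  have hle : m / 2 ≤ (m + 1) / 2 := by omega
  have hcard : m / 2 + (m + 1) / 2 = m := by omega
  let H := Fin (m / 2)
  let K := Fin ((m + 1) / 2)
  let ι : H → K := Fin.castLE hle
  have hι : Function.Injective ι := Fin.castLE_injective hle
  let e : Fin m ≃ H ⊕ K := (finCongr hcard.symm).trans finSumFinEquiv.symm
  let e2 : Fin m × Fin m → (H ⊕ K) × (H ⊕ K) := fun x => (e x.1, e x.2)
  refine ⟨V H K, inferInstance, V.form F ι, fun x => V.fa ι (e2 x), fun x => V.fb ι (e2 x),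
    fun x => V.fc ι (e2 x), ?_, ?_, ?_⟩
  · rw [V.card, Fintype.card_fin, Fintype.card_fin]
    rcases Nat.even_or_odd m with h | h
    · obtain ⟨k, rfl⟩ := h
      have h1 : (k + k) / 2 = k := by omega
      have h2 : (k + k + 1) / 2 = k := by omega
      rw [h1, h2]
      nlinarith
    · obtain ⟨k, rfl⟩ := h
      have h1 : (2 * k + 1) / 2 = k := by omega
      have h2 : (2 * k + 1 + 1) / 2 = k + 1 := by omega
      rw [h1, h2]
      nlinarith
  · intro h
    obtain ⟨k, rfl⟩ := h
    rw [V.card, Fintype.card_fin, Fintype.card_fin]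
    have h1 : (k + k) / 2 = k := by omega
    have h2 : (k + k + 1) / 2 = k := by omega
    rw [h1, h2]
    ring
  · intro x y z
    rw [← V.MM_eq F ι hι]
    unfold MMTensor MM
    simp only [e2, e.injective.eq_iff]

/-- **Rank methods prove at most `3.5 m ^ 2 + 3 m + 2` products for the multiplication of
`m × m` matrices**, and `tr (X Y Z)` is a restriction of a symmetric trilinear form in
`1.75 m ^ 2 + 1.5 m` variables (`1.75 m ^ 2` for even `m`). -/
theorem result :
    (∀ (F : Type) [Field F] [Infinite F] (m p q r : ℕ)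
      (φ : (Fin m × Fin m → Fin m × Fin m → Fin m × Fin m → F) →ₗ[F]
        Matrix (Fin p) (Fin q) F),
      (∀ x y z : Fin m × Fin m → F, (φ fun i j k => x i * y j * z k).rank ≤ r) →
        2 * (φ (MMTensor F m)).rank ≤ (7 * m ^ 2 + 6 * m + 4) * r ∧
        (Even m → 2 * (φ (MMTensor F m)).rank ≤ (7 * m ^ 2 + 4) * r)) ∧
    (∀ (F : Type) [Field F] (m : ℕ), ∃ (s : ℕ) (g : Fin s → Fin s → Fin s → F)
      (a b c : Fin m × Fin m → Fin s),
      4 * s ≤ 7 * m ^ 2 + 6 * m ∧ (Even m → 4 * s = 7 * m ^ 2) ∧
      (∀ u v w, g u v w = g v u w ∧ g u v w = g u w v) ∧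
      ∀ x y z, MMTensor F m x y z = g (a x) (b y) (c z)) := by
  classical
  constructor
  · intro F _ _ m p q r φ hφ
    obtain ⟨U, _, G, a, b, c, h1, h2, h3⟩ := restriction F m
    have h4 := barrier G φ (fun x y z => hφ x y z) (fun i u => if a i = u then 1 else 0)
      (fun i u => if b i = u then 1 else 0) (fun i u => if c i = u then 1 else 0)
    have h5 : (fun i j k => ∑ u, ∑ v, ∑ w, G.g u v w * ((if a i = u then 1 else 0) *
        (if b j = v then 1 else 0) * (if c k = w then 1 else 0))) = MMTensor F m := by
      funext i j k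
      rw [h3]
      rw [Finset.sum_eq_single (a i), Finset.sum_eq_single (b j), Finset.sum_eq_single (c k)]
      · simp
      · intro w _ hw
        rw [if_neg (Ne.symm hw)]
        ring
      · simp
      · intro v _ hv
        refine Finset.sum_eq_zero fun w _ => ?_
        rw [if_neg (Ne.symm hv)]
        ring
      · simp
      · intro u _ hu
        refine Finset.sum_eq_zero fun v _ => Finset.sum_eq_zero fun w _ => ?_
        rw [if_neg (Ne.symm hu)]
        ring
      · simp
    rw [h5] at h4
    constructor
    · calc 2 * (φ (MMTensor F m)).rank ≤ 2 * ((2 * Fintype.card U + 2) * r) :=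
            Nat.mul_le_mul_left _ h4
        _ = (4 * Fintype.card U + 4) * r := by ring
        _ ≤ (7 * m ^ 2 + 6 * m + 4) * r := Nat.mul_le_mul_right _ (by omega)
    · intro hm
      have h6 := h2 hm
      calc 2 * (φ (MMTensor F m)).rank ≤ 2 * ((2 * Fintype.card U + 2) * r) :=
            Nat.mul_le_mul_left _ h4
        _ = (4 * Fintype.card U + 4) * r := by ring
        _ ≤ (7 * m ^ 2 + 4) * r := Nat.mul_le_mul_right _ (by omega)
  · intro F _ m
    obtain ⟨U, _, G, a, b, c, h1, h2, h3⟩ := restriction F m
    let E := Fintype.equivFin U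
    refine ⟨Fintype.card U, fun u v w => G.g (E.symm u) (E.symm v) (E.symm w), fun x => E (a x),
      fun x => E (b x), fun x => E (c x), h1, h2, fun u v w => ⟨G.s12 _ _ _, G.s23 _ _ _⟩, ?_⟩
    intro x y z
    rw [h3]
    simp only [Equiv.symm_apply_apply]

end Pool.Agent.Results.MP_e72dc0_lc.RankMethodBarrier
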